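import Mathlib
import Pool.Agent.H3.ExpansiveDefs
import Pool.Agent.H3.ExpansiveMain

set_option autoImplicit false

namespace Pool.Agent.Results.MP_e3c312_co.FourBarDisproof

open Pool.Agent.H3.Expansive

/-- There is a `(Γ, θ)`-symmetric framework which is a 1DOF expansive mechanism and has an
expansive motion that does not preserve the symmetry `(Γ, θ)`, in the plane, on four vertices. -/
theorem result : HasCounterexample (EuclideanSpace ℝ (Fin 2)) 4 :=
  main

end Pool.Agent.Results.MP_e3c312_co.FourBarDisproof
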